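import Pool.Agent.W732.Ud.Stm

/-!
Project UD (helper732), part G2: the global holomorphic functions `W`, `Y`.
-/

set_option autoImplicit false

open Metric Set Filter Topology Complex
open scoped ContDiff

namespace Pool.Agent.W249.Ud

open Pool.Agent.W732.Ud
open Pool.Agent.W732.Cor (V mv tau)

/-- the factor `(1 + M w)^(-η)`, with `x = 1 + M w` -/
noncomputable def ch (η : ℝ) (x : ℂ) : ℂ := exp (-(η : ℂ) * log x)

lemma ch_norm (η : ℝ) (x : ℂ) : ‖ch η x‖ = Real.exp (-η * Real.log ‖x‖) := by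
  unfold ch
  rw [Complex.norm_exp]
  congr 1
  have : (-(η : ℂ) * log x) = ((-η : ℝ) : ℂ) * log x := by push_cast; ring
  rw [this, Complex.re_ofReal_mul, Complex.log_re]

lemma ch_sq (η : ℝ) (x : ℂ) : ‖ch (η / 2) x‖ ^ 2 = ‖ch η x‖ := by
  rw [ch_norm, ch_norm, ← Real.exp_nat_mul]
  congr 1
  push_cast
  ring

lemma ch_le_one {η : ℝ} (hη : 0 ≤ η) {x : ℂ} (hx : 1 ≤ ‖x‖) : ‖ch η x‖ ≤ 1 := by
  rw [ch_norm, Real.exp_le_one_iff]
  have := Real.log_nonneg hx
  nlinarith

lemma ch_sub {η : ℝ} (hη : 0 ≤ η) {x : ℂ} (hx : 0 ≤ x.re) :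
    ‖ch η x - (‖ch η x‖ : ℂ)‖ ≤ 2 * η * ‖ch η x‖ := by
  have e1 : ch η x = (‖ch η x‖ : ℂ) * exp (I * ((-η * arg x : ℝ) : ℂ)) := by
    rw [ch_norm]
    unfold ch
    rw [Complex.ofReal_exp, ← Complex.exp_add]
    congr 1
    have h1 : log x = (Real.log ‖x‖ : ℂ) + (arg x : ℂ) * I := by
      apply Complex.ext
      · simp [Complex.log_re]
      · simp [Complex.log_im]
    rw [h1]
    push_cast
    ring
  have h2 : |arg x| ≤ Real.pi / 2 := Complex.abs_arg_le_pi_div_two_iff.mpr hx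
  have h3 : ‖exp (I * ((-η * arg x : ℝ) : ℂ)) - 1‖ ≤ 2 * η := by
    refine (Real.norm_exp_I_mul_ofReal_sub_one_le).trans ?_
    rw [Real.norm_eq_abs, abs_mul, abs_neg, abs_of_nonneg hη]
    have := Real.pi_lt_four
    nlinarith
  have e2 : ch η x - (‖ch η x‖ : ℂ)
      = (‖ch η x‖ : ℂ) * (exp (I * ((-η * arg x : ℝ) : ℂ)) - 1) := by
    rw [mul_sub, mul_one, ← e1]
  rw [e2, norm_mul, Complex.norm_real, norm_norm, mul_comm]
  exact mul_le_mul_of_nonneg_right h3 (norm_nonneg _)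

lemma ch_diff (η : ℝ) {x : ℂ} (hx : 0 < x.re) : DifferentiableAt ℂ (ch η) x := by
  unfold ch
  exact ((Complex.differentiableAt_log (Or.inl hx)).const_mul _).cexp

lemma ch_one (η : ℝ) : ch η 1 = 1 := by simp [ch]

/-- real part of a product with a factor of small argument -/
lemma re_mul_le {η : ℝ} (hη : 0 ≤ η) {x T : ℂ} (hx : 0 ≤ x.re) :
    (ch η x * T).re ≤ ‖ch η x‖ * (T.re + 2 * η * ‖T‖) := by
  have e1 : ch η x * T = ((‖ch η x‖ : ℝ) : ℂ) * T + (ch η x - (‖ch η x‖ : ℂ)) * T := by ring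
  rw [e1, Complex.add_re, Complex.re_ofReal_mul]
  have h1 : ((ch η x - (‖ch η x‖ : ℂ)) * T).re ≤ 2 * η * ‖ch η x‖ * ‖T‖ := by
    refine (Complex.re_le_norm _).trans ?_
    rw [norm_mul]
    exact mul_le_mul_of_nonneg_right (ch_sub hη hx) (norm_nonneg _)
  linarith

/-- near region, real inequality -/
lemma near_ineq {c u v N qr lr li β S w1 T1 Y1 b0 l0 r0 c3 ε' η κ2 : ℝ}
    (hc0 : 0 ≤ c) (hc1 : c ≤ 1) (hu : 0 < u) (hS : S = N + qr + v * lr + β * v ^ 2)
    (hli : li ≤ l0 * Y1) (hw1 : w1 ≤ u + |v|)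
    (hT1 : T1 ≤ b0 * Y1 ^ 2 + w1 * (l0 * Y1)) (hY0 : 0 ≤ Y1) (hY : Y1 ≤ r0) (hb0 : 0 ≤ b0)
    (hl0 : 0 ≤ l0) (hη0 : 0 ≤ η) (hη1 : η ≤ 1) (hε : 0 ≤ ε')
    (hpos : ε' * (Y1 ^ 2 + v ^ 2) ≤ (1 - κ2) * N + β * v ^ 2)
    (h1 : 2 * η * (b0 + l0) ≤ ε' / 4) (h2 : 3 * l0 * r0 ≤ 1 / 2)
    (h3 : 3 * l0 * r0 * c3 ≤ ε' / 4) (hSc : S ≤ c3 * (Y1 ^ 2 + v ^ 2))
    (hSu : S - ε' / 4 * (Y1 ^ 2 + v ^ 2) < u) :
    c * (κ2 * N + (qr + v * lr + u * li + 2 * η * T1)) < u := by
  have hr0 : 0 ≤ r0 := hY0.trans hY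
  set s2 : ℝ := Y1 ^ 2 + v ^ 2 with hs2
  have hs0 : 0 ≤ s2 := by positivity
  have k1 : u * li ≤ u * (l0 * r0) :=
    mul_le_mul_of_nonneg_left (hli.trans (mul_le_mul_of_nonneg_left hY hl0)) hu.le
  have k2 : |v| * Y1 ≤ s2 := by
    have h4 := sq_nonneg (|v| - Y1)
    have h5 : |v| ^ 2 = v ^ 2 := sq_abs v
    nlinarith
  have k3 : T1 ≤ (b0 + l0) * s2 + u * (l0 * r0) := by
    have h4 : w1 * (l0 * Y1) ≤ (u + |v|) * (l0 * Y1) :=
      mul_le_mul_of_nonneg_right hw1 (mul_nonneg hl0 hY0)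
    have h5 : u * (l0 * Y1) ≤ u * (l0 * r0) :=
      mul_le_mul_of_nonneg_left (mul_le_mul_of_nonneg_left hY hl0) hu.le
    have h6 : |v| * (l0 * Y1) ≤ l0 * s2 := by
      have := mul_le_mul_of_nonneg_left k2 hl0
      linarith
    have h7 : b0 * Y1 ^ 2 ≤ b0 * s2 :=
      mul_le_mul_of_nonneg_left (by rw [hs2]; nlinarith [sq_nonneg v]) hb0
    linarith
  have k4 : 2 * η * T1 ≤ ε' / 4 * s2 + 2 * (u * (l0 * r0)) := by
    have h4 : 2 * η * T1 ≤ 2 * η * ((b0 + l0) * s2 + u * (l0 * r0)) :=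
      mul_le_mul_of_nonneg_left k3 (by linarith)
    have h5 : 2 * η * (b0 + l0) * s2 ≤ ε' / 4 * s2 := mul_le_mul_of_nonneg_right h1 hs0
    have h6 : 2 * η * (u * (l0 * r0)) ≤ 2 * 1 * (u * (l0 * r0)) :=
      mul_le_mul_of_nonneg_right (by linarith) (by positivity)
    linarith
  set E : ℝ := κ2 * N + (qr + v * lr + u * li + 2 * η * T1) with hE
  have k5 : E ≤ S - 3 / 4 * ε' * s2 + 3 * l0 * r0 * u := by
    rw [hE]
    linarith
  have k6 : E < u := by
    have h4 : (1 - 3 * l0 * r0) * (S - ε' / 4 * s2) < (1 - 3 * l0 * r0) * u :=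
      mul_lt_mul_of_pos_left hSu (by linarith)
    have h5 : 3 * l0 * r0 * S ≤ 3 * l0 * r0 * (c3 * s2) :=
      mul_le_mul_of_nonneg_left hSc (by positivity)
    have h6 : 3 * l0 * r0 * c3 * s2 ≤ ε' / 4 * s2 := mul_le_mul_of_nonneg_right h3 hs0
    have h7 : 0 ≤ 3 * l0 * r0 * (ε' / 4 * s2) := by positivity
    have h8 : 0 ≤ ε' * s2 := by positivity
    nlinarith
  rcases le_or_gt E 0 with h4 | h4
  · have := mul_nonpos_of_nonneg_of_nonpos hc0 h4
    linarith
  · have : c * E ≤ 1 * E := mul_le_mul_of_nonneg_right hc1 h4.le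
    linarith

theorem main : S_geo2 := by
  intro m e R D A B l β he hR hD hA hSS hnear κ hκ0 hκ1
  have hee : (inner ℂ e e : ℂ) = 1 := by
    rw [inner_self_eq_norm_sq_to_K, he]; simp
  -- constants
  set b0 : ℝ := ‖B‖ with hb0
  set l0 : ℝ := ‖l‖ with hl0
  set a0 : ℝ := ‖A‖ ^ 2 with ha0
  have hb0' : 0 ≤ b0 := norm_nonneg B
  have hl0' : 0 ≤ l0 := norm_nonneg _
  have ha0' : 0 ≤ a0 := by positivity
  have hκ2 : 0 < 1 - κ ^ 2 := by nlinarith
  set ε' : ℝ := (1 - κ ^ 2) / (2 * R) with hε'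
  have hε0 : 0 < ε' := by positivity
  have hβ : 1 / (2 * R) ≤ β := by
    have h := hSS 0 1 (by simp)
    simp only [SS, norm_zero, map_zero, Complex.zero_re] at h
    simpa using h
  have hNlow : ∀ y : V m, (inner ℂ e y : ℂ) = 0 → ‖y‖ ^ 2 / (2 * R) ≤ ‖A y‖ ^ 2 := by
    intro y hy
    have h1 := hSS y 0 hy
    have h2 := hSS (I • y) 0 (by rw [inner_smul_right, hy, mul_zero])
    simp only [SS, map_smul, norm_smul, Complex.norm_I, one_mul, zero_mul, add_zero,
      smul_apply, smul_eq_mul, ne_eq, OfNat.ofNat_ne_zero, not_false_eq_true,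
      zero_pow, mul_zero] at h1 h2
    have h3 : (I * (I * (B y) y)).re = -((B y) y).re := by
      rw [← mul_assoc, Complex.I_mul_I]; simp
    rw [h3] at h2
    have h4 : ‖y‖ ^ 2 / (2 * R) + ‖y‖ ^ 2 / (2 * R) ≤ 2 * ‖A y‖ ^ 2 := by linarith
    linarith
  set c3 : ℝ := a0 + b0 + l0 + |β| with hc3
  have hc3' : 0 ≤ c3 := by positivity
  set c4 : ℝ := a0 + 3 * b0 + 3 * l0 + 1 with hc4
  have hc4' : 0 < c4 := by positivity
  obtain ⟨r, hr, hnr⟩ := hnear (ε' / 4) (by positivity)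
  -- eta
  obtain ⟨η, hη0, hη1, hη2⟩ : ∃ η : ℝ, 0 < η ∧ η ≤ 1 ∧ 2 * η * (b0 + l0) ≤ ε' / 4 := by
    refine ⟨min 1 (ε' / (8 * (b0 + l0 + 1))), lt_min one_pos (by positivity), min_le_left _ _, ?_⟩
    have h1 : min 1 (ε' / (8 * (b0 + l0 + 1))) ≤ ε' / (8 * (b0 + l0 + 1)) := min_le_right _ _
    have h2 : 2 * (min 1 (ε' / (8 * (b0 + l0 + 1)))) * (b0 + l0)
        ≤ 2 * (ε' / (8 * (b0 + l0 + 1))) * (b0 + l0 + 1) := by
      apply mul_le_mul (by linarith) (by linarith) (by positivity) (by positivity)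
    refine h2.trans (le_of_eq ?_)
    field_simp
    ring
  -- r0
  obtain ⟨r0, hr0, hr1, hr2, hr3⟩ : ∃ r0 : ℝ, 0 < r0 ∧ r0 ≤ r ∧ 3 * l0 * r0 ≤ 1 / 2 ∧
      3 * l0 * r0 * c3 ≤ ε' / 4 := by
    have hp : 0 < min (1 / 2) (ε' / (4 * (c3 + 1))) := lt_min (by norm_num) (by positivity)
    refine ⟨min r (min (1 / 2) (ε' / (4 * (c3 + 1))) / (3 * (l0 + 1))), lt_min hr (by positivity),
      min_le_left _ _, ?_, ?_⟩
    all_goals
      have h1 : min r (min (1 / 2) (ε' / (4 * (c3 + 1))) / (3 * (l0 + 1)))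
        ≤ min (1 / 2) (ε' / (4 * (c3 + 1))) / (3 * (l0 + 1)) := min_le_right _ _
      have h0 : 0 ≤ min r (min (1 / 2) (ε' / (4 * (c3 + 1))) / (3 * (l0 + 1))) :=
        (lt_min hr (by positivity)).le
      have h2 : 3 * l0 * min r (min (1 / 2) (ε' / (4 * (c3 + 1))) / (3 * (l0 + 1)))
          ≤ min (1 / 2) (ε' / (4 * (c3 + 1))) := by
        calc 3 * l0 * min r (min (1 / 2) (ε' / (4 * (c3 + 1))) / (3 * (l0 + 1)))
            ≤ 3 * (l0 + 1) * (min (1 / 2) (ε' / (4 * (c3 + 1))) / (3 * (l0 + 1))) := by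
              apply mul_le_mul (by linarith) h1 h0 (by positivity)
          _ = min (1 / 2) (ε' / (4 * (c3 + 1))) := by field_simp
    · exact h2.trans (min_le_left _ _)
    · have h3 : min (1 / 2) (ε' / (4 * (c3 + 1))) ≤ ε' / (4 * (c3 + 1)) := min_le_right _ _
      have h4 : 3 * l0 * min r (min (1 / 2) (ε' / (4 * (c3 + 1))) / (3 * (l0 + 1))) * c3
          ≤ ε' / (4 * (c3 + 1)) * (c3 + 1) := by
        apply mul_le_mul (h2.trans h3) (by linarith) hc3' (by positivity)
      refine h4.trans (le_of_eq ?_)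
      field_simp
  -- M
  obtain ⟨M, hM0, hM⟩ : ∃ M : ℝ, 0 < M ∧ ∀ x : ℂ, M * (r0 ^ 2 / (2 * R)) ≤ ‖x‖ →
      ‖ch η x‖ * c4 ≤ 1 / (2 * R) := by
    set τ : ℝ := 1 / (2 * R * c4) with hτ
    have hτ0 : 0 < τ := by positivity
    refine ⟨Real.exp (-Real.log τ / η) * (2 * R / r0 ^ 2), by positivity, ?_⟩
    intro x hx
    have e1 : Real.exp (-Real.log τ / η) * (2 * R / r0 ^ 2) * (r0 ^ 2 / (2 * R))
        = Real.exp (-Real.log τ / η) := by field_simp
    rw [e1] at hx
    have h1 : -Real.log τ / η ≤ Real.log ‖x‖ := by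
      rw [← Real.log_exp (-Real.log τ / η)]
      exact Real.log_le_log (Real.exp_pos _) hx
    have h2 : ‖ch η x‖ ≤ τ := by
      rw [ch_norm, ← Real.exp_log hτ0, Real.exp_le_exp]
      rw [div_le_iff₀ hη0] at h1
      linarith
    calc ‖ch η x‖ * c4 ≤ τ * c4 := mul_le_mul_of_nonneg_right h2 hc4'.le
      _ = 1 / (2 * R) := by rw [hτ]; field_simp
  -- the functions
  set wf : V m → ℂ := fun z => (R : ℂ) - innerSL ℂ e z with hwf
  set yf : V m → V m := fun z => z - (innerSL ℂ e z) • e with hyf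
  have hwd : Differentiable ℂ wf := (differentiable_const _).sub (innerSL ℂ e).differentiable
  have hyd : Differentiable ℂ yf :=
    differentiable_id.sub ((innerSL ℂ e).differentiable.smul_const e)
  have hyo : ∀ z, (inner ℂ e (yf z) : ℂ) = 0 := by
    intro z
    simp only [hyf, innerSL_apply_apply]
    rw [inner_sub_right, inner_smul_right, hee]
    ring
  have hz : ∀ z, z = ((R : ℂ) - wf z) • e + yf z := by
    intro z
    simp only [hyf, hwf]
    rw [sub_sub_cancel]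
    abel
  have hball : ∀ z ∈ D, ‖wf z‖ ^ 2 + ‖yf z‖ ^ 2 < 2 * R * (wf z).re := by
    intro z hzD
    have h1 : ‖z‖ < R := by simpa using hD hzD
    have h2 : ‖z‖ ^ 2 = ‖(R : ℂ) - wf z‖ ^ 2 + ‖yf z‖ ^ 2 := by
      conv_lhs => rw [hz z]
      have h3 : (inner ℂ (((R : ℂ) - wf z) • e) (yf z) : ℂ) = 0 := by
        rw [inner_smul_left, hyo, mul_zero]
      have h4 := norm_add_sq_eq_norm_sq_add_norm_sq_of_inner_eq_zero _ _ h3
      rw [norm_smul, he, mul_one, ← sq, ← sq, ← sq] at h4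
      exact h4
    have h3 : ‖(R : ℂ) - wf z‖ ^ 2 = R ^ 2 - 2 * R * (wf z).re + ‖wf z‖ ^ 2 := by
      rw [← Complex.normSq_eq_norm_sq, ← Complex.normSq_eq_norm_sq, Complex.normSq_apply,
        Complex.normSq_apply]
      simp
      ring
    have h4 : ‖z‖ ^ 2 < R ^ 2 := pow_lt_pow_left₀ h1 (norm_nonneg z) two_ne_zero
    linarith
  have hu : ∀ z ∈ D, 0 < (wf z).re := by
    intro z hzD
    have h1 := hball z hzD
    have h2 : 0 < 2 * R * (wf z).re := lt_of_le_of_lt (by positivity) h1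
    exact pos_of_mul_pos_right h2 (by positivity)
  set xf : V m → ℂ := fun z => 1 + (M : ℂ) * wf z with hxf
  have hxre : ∀ z, (xf z).re = 1 + M * (wf z).re := by
    intro z
    simp [hxf]
  have hxd : Differentiable ℂ xf := (hwd.const_mul _).const_add _
  have hx1 : ∀ z ∈ D, 1 ≤ (xf z).re := by
    intro z hzD
    rw [hxre]
    have := mul_pos hM0 (hu z hzD)
    linarith
  set Tf : V m → ℂ := fun z => B (yf z) (yf z) - I * wf z * l (yf z) with hTf
  have hTd : Differentiable ℂ Tf := by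
    have h1 : Differentiable ℂ (fun z => B (yf z) (yf z)) :=
      (B.differentiable.comp hyd).clm_apply hyd
    have h2 : Differentiable ℂ (fun z => l (yf z)) := l.differentiable.comp hyd
    exact h1.sub ((hwd.const_mul I).mul h2)
  refine ⟨fun z => wf z - ch η (xf z) * Tf z,
    fun z => ((κ : ℂ) * ch (η / 2) (xf z)) • A (yf z), ?_, ?_, ?_, ?_⟩
  · intro z hzD
    have h1 : DifferentiableAt ℂ (fun z => ch η (xf z)) z :=
      (ch_diff η (lt_of_lt_of_le one_pos (hx1 z hzD))).comp z (hxd z)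
    exact ((hwd z).sub (h1.mul (hTd z))).differentiableWithinAt
  · intro z hzD
    have h1 : DifferentiableAt ℂ (fun z => ch (η / 2) (xf z)) z :=
      (ch_diff (η / 2) (lt_of_lt_of_le one_pos (hx1 z hzD))).comp z (hxd z)
    have h2 : DifferentiableAt ℂ (fun z => A (yf z)) z := (A.differentiable.comp hyd) z
    exact ((h1.const_mul (κ : ℂ)).smul h2).differentiableWithinAt
  · intro z hzD
    constructor
    · simp only
      rw [inner_smul_right, hA _ (hyo z), mul_zero]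
    · have hc1 : ‖ch η (xf z)‖ ≤ 1 :=
        ch_le_one hη0.le ((hx1 z hzD).trans (Complex.re_le_norm _))
      have hmul := re_mul_le hη0.le (x := xf z) (T := Tf z) (le_trans zero_le_one (hx1 z hzD))
      have hY2 : ‖((κ : ℂ) * ch (η / 2) (xf z)) • A (yf z)‖ ^ 2
          = ‖ch η (xf z)‖ * (κ ^ 2 * ‖A (yf z)‖ ^ 2) := by
        rw [norm_smul, norm_mul, Complex.norm_real, Real.norm_eq_abs, mul_pow, mul_pow, sq_abs,
          ch_sq]
        ring
      have hbz := hball z hzD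
      have huz := hu z hzD
      -- bounds of T
      have hTre : (Tf z).re = (B (yf z) (yf z)).re + (wf z).im * (l (yf z)).re
          + (wf z).re * (l (yf z)).im := by
        simp only [hTf, Complex.sub_re, Complex.mul_re, Complex.mul_im, Complex.I_re,
          Complex.I_im]
        ring
      have hBn : ‖B (yf z) (yf z)‖ ≤ b0 * ‖yf z‖ ^ 2 := by
        refine (B.le_opNorm₂ (yf z) (yf z)).trans (le_of_eq ?_)
        rw [hb0, mul_assoc, sq]
      have hln : ‖l (yf z)‖ ≤ l0 * ‖yf z‖ := l.le_opNorm _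
      have hAn : ‖A (yf z)‖ ^ 2 ≤ a0 * ‖yf z‖ ^ 2 := by
        have h1 := A.le_opNorm (yf z)
        rw [ha0, ← mul_pow]
        exact pow_le_pow_left₀ (norm_nonneg _) h1 2
      have hTn : ‖Tf z‖ ≤ b0 * ‖yf z‖ ^ 2 + ‖wf z‖ * (l0 * ‖yf z‖) := by
        refine (norm_sub_le _ _).trans ?_
        refine add_le_add hBn ?_
        rw [norm_mul, norm_mul, Complex.norm_I, one_mul]
        exact mul_le_mul_of_nonneg_left hln (norm_nonneg _)
      have goal1 : ‖ch η (xf z)‖ * (κ ^ 2 * ‖A (yf z)‖ ^ 2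
          + ((B (yf z) (yf z)).re + (wf z).im * (l (yf z)).re + (wf z).re * (l (yf z)).im
            + 2 * η * ‖Tf z‖)) < (wf z).re := by
        by_cases hreg : ‖yf z‖ < r0 ∧ ‖wf z‖ < r0
        · -- near region
          have hnz := hnr (yf z) (wf z) (hyo z) (lt_of_lt_of_le hreg.1 hr1)
            (lt_of_lt_of_le hreg.2 hr1) (by rw [← hz z]; exact hzD)
          have hw1 : ‖wf z‖ ≤ (wf z).re + |(wf z).im| := by
            have := Complex.norm_le_abs_re_add_abs_im (wf z)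
            rwa [abs_of_pos huz] at this
          refine near_ineq (S := SS A B l β (yf z) (wf z).im) (β := β) (w1 := ‖wf z‖)
            (Y1 := ‖yf z‖) (b0 := b0) (l0 := l0) (r0 := r0) (c3 := c3) (ε' := ε')
            (norm_nonneg _) hc1 huz ?_ ?_ hw1 hTn (norm_nonneg _) hreg.1.le hb0' hl0' hη0.le hη1
            hε0.le ?_ hη2 hr2 hr3 ?_ hnz
          · simp only [SS]
          · exact ((Complex.abs_im_le_norm _).trans hln).trans' (le_abs_self _)
          · have h1 := hNlow (yf z) (hyo z)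
            have h2 : ε' * ‖yf z‖ ^ 2 ≤ (1 - κ ^ 2) * ‖A (yf z)‖ ^ 2 := by
              have h3 := mul_le_mul_of_nonneg_left h1 hκ2.le
              calc ε' * ‖yf z‖ ^ 2 = (1 - κ ^ 2) * (‖yf z‖ ^ 2 / (2 * R)) := by
                    rw [hε']; ring
                _ ≤ _ := h3
            have h4 : ε' ≤ β := by
              refine le_trans ?_ hβ
              rw [hε']
              apply div_le_div_of_nonneg_right _ (by positivity)
              nlinarith [sq_nonneg κ]
            have h5 : ε' * (wf z).im ^ 2 ≤ β * (wf z).im ^ 2 :=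
              mul_le_mul_of_nonneg_right h4 (sq_nonneg _)
            linarith
          · simp only [SS]
            have h1 : (B (yf z) (yf z)).re ≤ b0 * ‖yf z‖ ^ 2 := (Complex.re_le_norm _).trans hBn
            have h2 : (wf z).im * (l (yf z)).re ≤ l0 * (‖yf z‖ ^ 2 + (wf z).im ^ 2) := by
              have h3 : (wf z).im * (l (yf z)).re ≤ |(wf z).im| * (l0 * ‖yf z‖) := by
                refine (le_abs_self _).trans ?_
                rw [abs_mul]
                exact mul_le_mul_of_nonneg_left ((Complex.abs_re_le_norm _).trans hln)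
                  (abs_nonneg _)
              have h4 := sq_nonneg (|(wf z).im| - ‖yf z‖)
              have h5 : |(wf z).im| ^ 2 = (wf z).im ^ 2 := sq_abs _
              have h6 : |(wf z).im| * ‖yf z‖ ≤ ‖yf z‖ ^ 2 + (wf z).im ^ 2 := by nlinarith
              have h7 := mul_le_mul_of_nonneg_left h6 hl0'
              linarith
            have h3 : β * (wf z).im ^ 2 ≤ |β| * (wf z).im ^ 2 :=
              mul_le_mul_of_nonneg_right (le_abs_self _) (sq_nonneg _)
            have h4 : 0 ≤ a0 * (wf z).im ^ 2 := by positivity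
            have h5 : 0 ≤ b0 * (wf z).im ^ 2 := by positivity
            have h6 : 0 ≤ |β| * ‖yf z‖ ^ 2 := by positivity
            rw [hc3]
            linarith
        · -- far region
          have hfar : r0 ^ 2 ≤ ‖wf z‖ ^ 2 + ‖yf z‖ ^ 2 := by
            rw [not_and_or, not_lt, not_lt] at hreg
            rcases hreg with h | h
            · have := pow_le_pow_left₀ hr0.le h 2
              have := sq_nonneg ‖wf z‖
              linarith
            · have := pow_le_pow_left₀ hr0.le h 2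
              have := sq_nonneg ‖yf z‖
              linarith
          have hxn : M * (r0 ^ 2 / (2 * R)) ≤ ‖xf z‖ := by
            have h1 : r0 ^ 2 / (2 * R) ≤ (wf z).re := by
              rw [div_le_iff₀ (by positivity)]
              linarith
            have h2 := mul_le_mul_of_nonneg_left h1 hM0.le
            refine le_trans ?_ (Complex.re_le_norm _)
            rw [hxre]
            linarith
          have hcM := hM (xf z) hxn
          set s3 : ℝ := ‖wf z‖ ^ 2 + ‖yf z‖ ^ 2 with hs3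
          have hs30 : 0 ≤ s3 := by positivity
          have hT3 : ‖Tf z‖ ≤ (b0 + l0) * s3 := by
            have h1 := sq_nonneg (‖wf z‖ - ‖yf z‖)
            have h2 : ‖wf z‖ * ‖yf z‖ ≤ s3 := by rw [hs3]; nlinarith
            have h3 := mul_le_mul_of_nonneg_left h2 hl0'
            have h4 : b0 * ‖yf z‖ ^ 2 ≤ b0 * s3 :=
              mul_le_mul_of_nonneg_left (by rw [hs3]; nlinarith [sq_nonneg ‖wf z‖]) hb0'
            linarith
          have hTre2 : (Tf z).re ≤ ‖Tf z‖ := Complex.re_le_norm _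
          have hE : κ ^ 2 * ‖A (yf z)‖ ^ 2 + ((B (yf z) (yf z)).re + (wf z).im * (l (yf z)).re
              + (wf z).re * (l (yf z)).im + 2 * η * ‖Tf z‖) ≤ c4 * s3 := by
            rw [← hTre]
            have h1 : κ ^ 2 * ‖A (yf z)‖ ^ 2 ≤ a0 * s3 := by
              have h2 : κ ^ 2 * ‖A (yf z)‖ ^ 2 ≤ 1 * ‖A (yf z)‖ ^ 2 :=
                mul_le_mul_of_nonneg_right (by linarith) (sq_nonneg _)
              have h3 : a0 * ‖yf z‖ ^ 2 ≤ a0 * s3 :=
                mul_le_mul_of_nonneg_left (by rw [hs3]; nlinarith [sq_nonneg ‖wf z‖]) ha0'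
              linarith
            have h2 : 2 * η * ‖Tf z‖ ≤ 2 * ‖Tf z‖ :=
              mul_le_mul_of_nonneg_right (by linarith) (norm_nonneg _)
            rw [hc4]
            linarith
          have h1 := mul_le_mul_of_nonneg_left hE (norm_nonneg (ch η (xf z)))
          have h2 := mul_le_mul_of_nonneg_right hcM hs30
          have h3 : 1 / (2 * R) * s3 < (wf z).re := by
            rw [one_div, inv_mul_lt_iff₀ (by positivity)]
            exact hbz
          linarith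
      rw [hY2, Complex.sub_re]
      rw [hTre] at hmul
      linarith
  · -- asymptotics
    intro σ hσ
    -- continuity of the factor at 1
    have hcont : ∀ η' : ℝ, Tendsto (fun w : ℂ => ch η' (1 + (M : ℂ) * w)) (𝓝 0) (𝓝 1) := by
      intro η'
      have h1 : ContinuousAt (fun w : ℂ => ch η' (1 + (M : ℂ) * w)) 0 := by
        refine ContinuousAt.comp (g := ch η') ?_ (by fun_prop)
        apply (ch_diff η' _).continuousAt
        simp
      have h2 := h1.tendsto
      simpa [ch_one] using h2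
    have hev : ∀ (η' ζ : ℝ), 0 < ζ → ∃ ρ : ℝ, 0 < ρ ∧ ∀ w : ℂ, ‖w‖ < ρ →
        ‖ch η' (1 + (M : ℂ) * w) - 1‖ < ζ := by
      intro η' ζ hζ
      have h1 := (hcont η').eventually (Metric.ball_mem_nhds 1 hζ)
      obtain ⟨ρ, hρ, h2⟩ := Metric.eventually_nhds_iff.mp h1
      refine ⟨ρ, hρ, fun w hw => ?_⟩
      have h3 := h2 (y := w) (by simpa using hw)
      rwa [dist_eq_norm] at h3
    obtain ⟨ρ1, hρ1, hh1⟩ := hev η (σ / (b0 + 1)) (by positivity)
    obtain ⟨ρ2, hρ2, hh2⟩ := hev (η / 2) (σ / (‖A‖ + 1)) (by positivity)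
    refine ⟨min (min ρ1 ρ2) (σ / (l0 + 1)), lt_min (lt_min hρ1 hρ2) (by positivity), ?_⟩
    intro y w hy hyr hwr hyD
    set z : V m := ((R : ℂ) - w) • e + y with hzz
    have hinn : (innerSL ℂ e z : ℂ) = (R : ℂ) - w := by
      rw [innerSL_apply_apply, hzz, inner_add_right, inner_smul_right, hee, hy]
      ring
    have hwz : wf z = w := by
      simp only [hwf]
      rw [hinn]; ring
    have hyz : yf z = y := by
      simp only [hyf]
      rw [hinn, hzz]; abel
    have hw1 : ‖w‖ < ρ1 := lt_of_lt_of_le hwr ((min_le_left _ _).trans (min_le_left _ _))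
    have hw2 : ‖w‖ < ρ2 := lt_of_lt_of_le hwr ((min_le_left _ _).trans (min_le_right _ _))
    have hy3 : ‖y‖ < σ / (l0 + 1) := lt_of_lt_of_le hyr (min_le_right _ _)
    have hxz : xf z = 1 + (M : ℂ) * w := by
      simp only [hxf, hwz]
    have hx1' : 1 ≤ ‖xf z‖ := (hx1 z hyD).trans (Complex.re_le_norm _)
    constructor
    · simp only [hTf, hwz, hyz]
      have e1 : w - ch η (xf z) * (B y y - I * w * l y) - (w - B y y)
          = (1 - ch η (xf z)) * B y y + I * (ch η (xf z) * (w * l y)) := by ring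
      rw [e1]
      refine (norm_add_le _ _).trans ?_
      have h1 : ‖(1 - ch η (xf z)) * B y y‖ ≤ σ * ‖y‖ ^ 2 := by
        rw [norm_mul, norm_sub_rev]
        have h2 : ‖B y y‖ ≤ b0 * ‖y‖ ^ 2 := by
          refine (B.le_opNorm₂ y y).trans (le_of_eq ?_)
          rw [hb0, mul_assoc, sq]
        have h3 : ‖ch η (xf z) - 1‖ ≤ σ / (b0 + 1) := by
          rw [hxz]; exact (hh1 w hw1).le
        calc ‖ch η (xf z) - 1‖ * ‖B y y‖ ≤ σ / (b0 + 1) * (b0 * ‖y‖ ^ 2) :=
              mul_le_mul h3 h2 (norm_nonneg _) (by positivity)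
          _ ≤ σ / (b0 + 1) * ((b0 + 1) * ‖y‖ ^ 2) := by
              apply mul_le_mul_of_nonneg_left _ (by positivity)
              exact mul_le_mul_of_nonneg_right (by linarith) (by positivity)
          _ = σ * ‖y‖ ^ 2 := by field_simp
      have h4 : ‖I * (ch η (xf z) * (w * l y))‖ ≤ σ * ‖w‖ := by
        rw [norm_mul, Complex.norm_I, one_mul, norm_mul, norm_mul]
        have h5 : ‖ch η (xf z)‖ ≤ 1 := ch_le_one hη0.le hx1'
        have h6 : ‖l y‖ ≤ σ := by
          refine (l.le_opNorm y).trans ?_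
          have h7 : l0 * ‖y‖ ≤ (l0 + 1) * (σ / (l0 + 1)) :=
            mul_le_mul (by linarith) hy3.le (norm_nonneg _) (by positivity)
          refine h7.trans (le_of_eq ?_)
          field_simp
        calc ‖ch η (xf z)‖ * (‖w‖ * ‖l y‖) ≤ 1 * (‖w‖ * σ) := by
              apply mul_le_mul h5 _ (by positivity) zero_le_one
              exact mul_le_mul_of_nonneg_left h6 (norm_nonneg _)
          _ = σ * ‖w‖ := by ring
      linarith
    · simp only [hyz]
      have e1 : ((κ : ℂ) * ch (η / 2) (xf z)) • A y - (κ : ℂ) • A y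
          = ((κ : ℂ) * (ch (η / 2) (xf z) - 1)) • A y := by
        rw [← sub_smul]; congr 1; ring
      rw [e1, norm_smul, norm_mul, Complex.norm_real, Real.norm_eq_abs, abs_of_pos hκ0]
      have h3 : ‖ch (η / 2) (xf z) - 1‖ ≤ σ / (‖A‖ + 1) := by
        rw [hxz]; exact (hh2 w hw2).le
      have h4 : ‖A y‖ ≤ (‖A‖ + 1) * ‖y‖ := by
        refine (A.le_opNorm y).trans ?_
        exact mul_le_mul_of_nonneg_right (by linarith) (norm_nonneg _)
      calc κ * ‖ch (η / 2) (xf z) - 1‖ * ‖A y‖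
          ≤ 1 * (σ / (‖A‖ + 1)) * ((‖A‖ + 1) * ‖y‖) := by
            apply mul_le_mul _ h4 (norm_nonneg _) (by positivity)
            exact mul_le_mul hκ1.le h3 (norm_nonneg _) zero_le_one
        _ = σ * ‖y‖ := by field_simp

end Pool.Agent.W249.Ud

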